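import Mathlib

/-!
# The group of the affine permutations of a field and words in it
-/

set_option autoImplicit false

namespace Pool.Agent.H440.WG

/-- The group of the maps `x ↦ a x + b` with a unit `a`. -/
@[ext] structure Aff (B : Type) [CommRing B] where
  /-- the coefficient `a` -/
  lin : Bˣ
  /-- the coefficient `b` -/
  tr : B

namespace Aff

variable {B C : Type} [CommRing B] [CommRing C]

instance : Mul (Aff B) := ⟨fun g h => ⟨g.lin * h.lin, g.lin * h.tr + g.tr⟩⟩
instance : One (Aff B) := ⟨⟨1, 0⟩⟩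
instance : Inv (Aff B) := ⟨fun g => ⟨g.lin⁻¹, -(((g.lin⁻¹ : Bˣ) : B) * g.tr)⟩⟩

@[simp] lemma mul_lin (g h : Aff B) : (g * h).lin = g.lin * h.lin := rfl
@[simp] lemma mul_tr (g h : Aff B) : (g * h).tr = g.lin * h.tr + g.tr := rfl
@[simp] lemma one_lin : (1 : Aff B).lin = 1 := rfl
@[simp] lemma one_tr : (1 : Aff B).tr = 0 := rfl
@[simp] lemma inv_lin (g : Aff B) : (g⁻¹).lin = g.lin⁻¹ := rfl
@[simp] lemma inv_tr (g : Aff B) : (g⁻¹).tr = -(((g.lin⁻¹ : Bˣ) : B) * g.tr) := rfl

instance : Group (Aff B) where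
  mul_assoc g h k := by
    apply Aff.ext
    · exact mul_assoc _ _ _
    · simp only [mul_tr, mul_lin, Units.val_mul]
      ring
  one_mul g := by
    apply Aff.ext
    · exact one_mul _
    · simp
  mul_one g := by
    apply Aff.ext
    · exact mul_one _
    · simp
  inv_mul_cancel g := by
    apply Aff.ext
    · exact inv_mul_cancel _
    · simp

/-- The functoriality. -/
def map (f : B →+* C) : Aff B →* Aff C where
  toFun g := ⟨Units.map f.toMonoidHom g.lin, f g.tr⟩
  map_one' := by
    apply Aff.ext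
    · exact map_one _
    · exact map_zero f
  map_mul' g h := by
    apply Aff.ext
    · exact map_mul _ _ _
    · change f (g.lin * h.tr + g.tr) = f g.lin * f h.tr + f g.tr
      rw [map_add, map_mul]

lemma map_lin (f : B →+* C) (g : Aff B) : (((map f g).lin : Cˣ) : C) = f g.lin := rfl
lemma map_tr (f : B →+* C) (g : Aff B) : (map f g).tr = f g.tr := rfl

/-- The pairs `(a, b)`. -/
def equivProd : Aff B ≃ Bˣ × B where
  toFun g := (g.lin, g.tr)
  invFun x := ⟨x.1, x.2⟩
  left_inv _ := rfl
  right_inv _ := rfl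

lemma eq_one_iff (g : Aff B) : g = 1 ↔ g.lin = 1 ∧ g.tr = 0 := by
  constructor
  · rintro rfl
    exact ⟨rfl, rfl⟩
  · rintro ⟨h1, h2⟩
    exact Aff.ext h1 h2

/-- A translation. -/
def tra (d : B) : Aff B := ⟨1, d⟩

lemma tra_mul (d e : B) : tra d * tra e = tra (d + e) := by
  apply Aff.ext
  · exact one_mul _
  · change ((1 : Bˣ) : B) * e + d = d + e
    rw [Units.val_one, one_mul, add_comm]

lemma tra_zero : tra (0 : B) = 1 := rfl

lemma tra_inv (d : B) : (tra d)⁻¹ = tra (-d) := by
  rw [inv_eq_iff_mul_eq_one, tra_mul, add_neg_cancel, tra_zero]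

lemma conj_tra (g : Aff B) (d : B) : g * tra d * g⁻¹ = tra (g.lin * d) := by
  apply Aff.ext
  · change g.lin * 1 * g.lin⁻¹ = 1
    rw [mul_one, mul_inv_cancel]
  · change ((g.lin * 1 : Bˣ) : B) * (-(((g.lin⁻¹ : Bˣ) : B) * g.tr)) + (g.lin * d + g.tr) = g.lin * d
    rw [mul_one, mul_neg, ← mul_assoc, Units.mul_inv, one_mul]
    ring

/-- The translation part of the commutator. -/
def cm (g h : Aff B) : B := (g * h * g⁻¹ * h⁻¹).tr

lemma comm_eq (g h : Aff B) : g * h * g⁻¹ * h⁻¹ = tra (cm g h) := by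
  apply Aff.ext
  · change g.lin * h.lin * g.lin⁻¹ * h.lin⁻¹ = 1
    rw [mul_comm g.lin h.lin, mul_assoc h.lin, mul_inv_cancel, mul_one, mul_inv_cancel]
  · rfl

lemma cm_eq_zero (g h : Aff B) : cm g h = 0 ↔ ((g.lin : B) - 1) * h.tr = ((h.lin : B) - 1) * g.tr := by
  have h1 : cm g h = 0 ↔ g * h = h * g := by
    rw [← mul_inv_eq_one (b := h * g), mul_inv_rev, ← mul_assoc, comm_eq, eq_one_iff]
    exact ⟨fun h => ⟨rfl, h⟩, fun h => h.2⟩
  rw [h1, Aff.ext_iff]
  constructor
  · rintro ⟨_, h2⟩
    simp only [mul_tr] at h2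
    linear_combination h2
  · intro h2
    refine ⟨mul_comm _ _, ?_⟩
    simp only [mul_tr]
    linear_combination h2

end Aff

section words

variable {a b c : ℕ}

/-- The generators `x_i`, `y_j`, `z_k` and `t`, `u`. -/
abbrev Gen (a b c : ℕ) : Type := (Fin a ⊕ Fin b ⊕ Fin c) ⊕ Fin 2

/-- The word `x_i y_j z_k`. -/
def wrd (h : Fin a × Fin b × Fin c) : FreeGroup (Gen a b c) :=
  FreeGroup.of (Sum.inl (Sum.inl h.1)) * FreeGroup.of (Sum.inl (Sum.inr (Sum.inl h.2.1))) *
    FreeGroup.of (Sum.inl (Sum.inr (Sum.inr h.2.2)))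

/-- The commutator of `t` and `u`. -/
def tu (a b c : ℕ) : FreeGroup (Gen a b c) :=
  FreeGroup.of (Sum.inr 0) * FreeGroup.of (Sum.inr 1) * (FreeGroup.of (Sum.inr 0))⁻¹ *
    (FreeGroup.of (Sum.inr 1))⁻¹

/-- The word `[t, u]⁻¹ ∏ (x_i y_j z_k) [t, u] (x_i y_j z_k)⁻¹`, a product over the list of the triples
`(i, j, k)`. -/
def relator (L : List (Fin a × Fin b × Fin c)) : FreeGroup (Gen a b c) :=
  (tu a b c)⁻¹ * (L.map fun h => wrd h * tu a b c * (wrd h)⁻¹).prod

/-- The value of the trilinear form. -/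
def tval {R : Type} [Semiring R] (L : List (Fin a × Fin b × Fin c))
    (v : Fin a ⊕ Fin b ⊕ Fin c → R) : R :=
  (L.map fun h => v (Sum.inl h.1) * v (Sum.inr (Sum.inl h.2.1)) * v (Sum.inr (Sum.inr h.2.2))).sum

variable {B : Type} [CommRing B]

lemma lift_relator (L : List (Fin a × Fin b × Fin c)) (f : Gen a b c → Aff B) :
    FreeGroup.lift f (relator L) = Aff.tra ((tval L (fun i => ((f (Sum.inl i)).lin : B)) - 1) *
      Aff.cm (f (Sum.inr 0)) (f (Sum.inr 1))) := by
  have h1 : FreeGroup.lift f (tu a b c) = Aff.tra (Aff.cm (f (Sum.inr 0)) (f (Sum.inr 1))) := by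
    rw [tu, map_mul, map_mul, map_mul, map_inv, map_inv, FreeGroup.lift_apply_of,
      FreeGroup.lift_apply_of, Aff.comm_eq]
  have h2 : ∀ L : List (Fin a × Fin b × Fin c),
      FreeGroup.lift f ((L.map fun h => wrd h * tu a b c * (wrd h)⁻¹).prod) =
      Aff.tra (tval L (fun i => ((f (Sum.inl i)).lin : B)) *
        Aff.cm (f (Sum.inr 0)) (f (Sum.inr 1))) := by
    intro L
    induction L with
    | nil =>
      simp only [List.map_nil, List.prod_nil, map_one, tval, List.sum_nil, zero_mul]
      rfl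
    | cons h L ih =>
      rw [List.map_cons, List.prod_cons, map_mul, ih, map_mul, map_mul, map_inv, h1,
        Aff.conj_tra, Aff.tra_mul]
      congr 1
      rw [wrd, map_mul, map_mul, FreeGroup.lift_apply_of, FreeGroup.lift_apply_of,
        FreeGroup.lift_apply_of]
      simp only [tval, List.map_cons, List.sum_cons, Aff.mul_lin, Units.val_mul]
      ring
  rw [relator, map_mul, map_inv, h1, h2, Aff.tra_inv, Aff.tra_mul]
  congr 1
  ring

/-- The homomorphisms of a group given by generators and relations. -/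
def presEquiv {α G : Type} [Group G] (rels : Set (FreeGroup α)) :
    (PresentedGroup rels →* G) ≃ {f : α → G // ∀ r ∈ rels, FreeGroup.lift f r = 1} where
  toFun φ := ⟨fun i => φ (PresentedGroup.of i), fun r hr => by
    have h1 : FreeGroup.lift (fun i => φ (PresentedGroup.of i)) =
        φ.comp (PresentedGroup.mk rels) := by
      apply FreeGroup.ext_hom
      intro i
      rw [FreeGroup.lift_apply_of]
      rfl
    rw [h1, MonoidHom.comp_apply, PresentedGroup.one_of_mem hr, map_one]⟩
  invFun f := PresentedGroup.toGroup f.2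
  left_inv φ := by
    apply PresentedGroup.ext
    intro i
    exact PresentedGroup.toGroup.of _
  right_inv f := by
    apply Subtype.ext
    funext i
    exact PresentedGroup.toGroup.of _

end words

section field

variable {F : Type} [Field F]

/-- The affine permutation `x ↦ a x + b`. -/
def toAffine (g : Aff F) : F ≃ᵃ[F] F where
  toFun x := g.lin * x + g.tr
  invFun x := ((g.lin⁻¹ : Fˣ) : F) * (x - g.tr)
  left_inv x := by
    change ((g.lin⁻¹ : Fˣ) : F) * (g.lin * x + g.tr - g.tr) = x
    rw [add_sub_cancel_right, ← mul_assoc, Units.inv_mul, one_mul]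
  right_inv x := by
    change (g.lin : F) * (((g.lin⁻¹ : Fˣ) : F) * (x - g.tr)) + g.tr = x
    rw [← mul_assoc, Units.mul_inv, one_mul, sub_add_cancel]
  linear := LinearEquiv.smulOfUnit g.lin
  map_vadd' x v := by
    change (g.lin : F) * (v + x) + g.tr = g.lin • v + (g.lin * x + g.tr)
    rw [Units.smul_def, smul_eq_mul]
    ring

lemma toAffine_apply (g : Aff F) (x : F) : toAffine g x = g.lin * x + g.tr := rfl

lemma affine_apply (e : F ≃ᵃ[F] F) (x : F) : e x = e.linear 1 * x + e 0 := by
  have h1 : e (x +ᵥ (0 : F)) = e.linear x +ᵥ e 0 := e.map_vadd 0 x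
  rw [vadd_eq_add, add_zero, vadd_eq_add] at h1
  have h2 : e.linear x = x • e.linear 1 := by
    rw [← map_smul, smul_eq_mul, mul_one]
  rw [h1, h2, smul_eq_mul, mul_comm]

/-- The group of the affine permutations of a field. -/
noncomputable def affEquiv (F : Type) [Field F] : Aff F ≃* (F ≃ᵃ[F] F) where
  toFun := toAffine
  invFun e := ⟨Units.mk0 (e.linear 1) (by
    intro h
    have h1 : e.linear 1 = e.linear 0 := by rw [h, map_zero]
    exact one_ne_zero (e.linear.injective h1)), e 0⟩
  left_inv g := by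
    apply Aff.ext
    · apply Units.ext
      change g.lin • (1 : F) = g.lin
      rw [Units.smul_def, smul_eq_mul, mul_one]
    · change (g.lin : F) * 0 + g.tr = g.tr
      rw [mul_zero, zero_add]
  right_inv e := by
    ext x
    exact (affine_apply e x).symm
  map_mul' g h := by
    ext x
    change ((g.lin * h.lin : Fˣ) : F) * x + (g.lin * h.tr + g.tr) =
      g.lin * (h.lin * x + h.tr) + g.tr
    rw [Units.val_mul]
    ring

/-- Homomorphisms to isomorphic groups. -/
def homCongr {Γ G H : Type} [Group Γ] [Group G] [Group H] (e : G ≃* H) : (Γ →* G) ≃ (Γ →* H) where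
  toFun f := e.toMonoidHom.comp f
  invFun f := e.symm.toMonoidHom.comp f
  left_inv f := by
    ext x
    exact e.symm_apply_apply _
  right_inv f := by
    ext x
    exact e.apply_symm_apply _

open Classical in
/-- Solutions of a linear equation in two unknowns. -/
lemma card_lin (p r : F) : Nat.card {y : F × F // p * y.2 = r * y.1} =
    if p = 0 ∧ r = 0 then Nat.card F ^ 2 else Nat.card F := by
  split_ifs with h
  · obtain ⟨rfl, rfl⟩ := h
    rw [pow_two, ← Nat.card_prod]
    apply Nat.card_congr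
    exact Equiv.subtypeUnivEquiv fun y => by rw [zero_mul, zero_mul]
  · by_cases hp : p = 0
    · subst hp
      have hr : r ≠ 0 := fun h2 => h ⟨rfl, h2⟩
      apply Nat.card_congr
      exact
        { toFun := fun y => y.1.2
          invFun := fun e => ⟨(0, e), by rw [zero_mul, mul_zero]⟩
          left_inv := fun y => by
            have h1 : y.1.1 = 0 := by
              have h2 := y.2
              rw [zero_mul] at h2
              exact (mul_eq_zero.1 h2.symm).resolve_left hr
            apply Subtype.ext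
            exact Prod.ext h1.symm rfl
          right_inv := fun _ => rfl }
    · apply Nat.card_congr
      exact
        { toFun := fun y => y.1.1
          invFun := fun b => ⟨(b, p⁻¹ * (r * b)), by
            rw [← mul_assoc, mul_inv_cancel₀ hp, one_mul]⟩
          left_inv := fun y => by
            apply Subtype.ext
            refine Prod.ext_iff.2 ⟨rfl, ?_⟩
            change p⁻¹ * (r * y.1.1) = y.1.2
            rw [← y.2, ← mul_assoc, inv_mul_cancel₀ hp, one_mul]
          right_inv := fun _ => rfl }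

variable [Finite F]

/-- The number of the commuting pairs. -/
lemma card_comm_pairs : Nat.card {y : Aff F × Aff F // Aff.cm y.1 y.2 = 0} =
    Nat.card F ^ 2 * (Nat.card F - 1) := by
  classical
  have := Fintype.ofFinite F
  have h1 : Nat.card {y : Aff F × Aff F // Aff.cm y.1 y.2 = 0} =
      Nat.card (Σ x : Fˣ × Fˣ, {y : F × F // ((x.1 : F) - 1) * y.2 = ((x.2 : F) - 1) * y.1}) := by
    apply Nat.card_congr
    exact
      { toFun := fun y => ⟨(y.1.1.lin, y.1.2.lin), ⟨(y.1.1.tr, y.1.2.tr),
          (Aff.cm_eq_zero _ _).1 y.2⟩⟩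
        invFun := fun z => ⟨(⟨z.1.1, z.2.1.1⟩, ⟨z.1.2, z.2.1.2⟩), (Aff.cm_eq_zero _ _).2 z.2.2⟩
        left_inv := fun _ => rfl
        right_inv := fun _ => rfl }
  have h2 : ∀ x : Fˣ × Fˣ, Nat.card {y : F × F // ((x.1 : F) - 1) * y.2 = ((x.2 : F) - 1) * y.1} =
      Nat.card F + if x = 1 then Nat.card F * (Nat.card F - 1) else 0 := by
    intro x
    rw [card_lin]
    have h3 : ((x.1 : F) - 1 = 0 ∧ (x.2 : F) - 1 = 0) ↔ x = 1 := by
      rw [sub_eq_zero, sub_eq_zero, Units.val_eq_one, Units.val_eq_one, Prod.ext_iff]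
      rfl
    by_cases h : x = 1
    · rw [if_pos (h3.2 h), if_pos h]
      have h4 : 1 ≤ Nat.card F := Nat.card_pos
      obtain ⟨n, hn⟩ := Nat.exists_eq_add_of_le h4
      rw [hn, Nat.add_sub_cancel_left]
      ring
    · rw [if_neg fun h5 => h (h3.1 h5), if_neg h, add_zero]
  rw [h1, Nat.card_sigma, Finset.sum_congr rfl fun x _ => h2 x, Finset.sum_add_distrib,
    Finset.sum_const, Finset.sum_ite_eq' Finset.univ (1 : Fˣ × Fˣ), if_pos (Finset.mem_univ _),
    Finset.card_univ, ← Nat.card_eq_fintype_card, Nat.card_prod, Nat.card_units, smul_eq_mul]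
  have h4 : 1 ≤ Nat.card F := Nat.card_pos
  obtain ⟨n, hn⟩ := Nat.exists_eq_add_of_le h4
  rw [hn, Nat.add_sub_cancel_left]
  ring

/-- A disjunction in a product. -/
lemma card_or {A Y : Type} [Finite A] [Finite Y] (P : A → Prop) (R : Y → Prop) :
    Nat.card {z : A × Y // P z.1 ∨ R z.2} =
      Nat.card {x // P x} * Nat.card Y + Nat.card {x // ¬ P x} * Nat.card {y // R y} := by
  classical
  rw [← Nat.card_prod, ← Nat.card_prod, ← Nat.card_sum]
  apply Nat.card_congr
  exact
    { toFun := fun z => if h : P z.1.1 then Sum.inl (⟨z.1.1, h⟩, z.1.2)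
        else Sum.inr (⟨z.1.1, h⟩, ⟨z.1.2, z.2.resolve_left h⟩)
      invFun := fun w => Sum.elim (fun w => ⟨(w.1.1, w.2), Or.inl w.1.2⟩)
        (fun w => ⟨(w.1.1, w.2.1), Or.inr w.2.2⟩) w
      left_inv := fun z => by
        by_cases h : P z.1.1
        · simp only [h, dif_pos]
          rfl
        · simp only [h, dif_neg, not_false_eq_true]
          rfl
      right_inv := fun w => by
        rcases w with w | w
        · exact dif_pos w.1.2
        · exact dif_neg w.1.2 }

/-- The number of the homomorphisms of the one-relator group. -/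
theorem card_hom_relator {a b c : ℕ} (L : List (Fin a × Fin b × Fin c)) :
    (Nat.card (PresentedGroup {relator L} →* (F ≃ᵃ[F] F)) : ℤ) =
      (Nat.card F : ℤ) ^ (a + b + c + 2) * ((Nat.card F : ℤ) - 1) *
        (((Nat.card F : ℤ) - 1) ^ (a + b + c) + ((Nat.card F : ℤ) - 2) *
          Nat.card {u : Fin a ⊕ Fin b ⊕ Fin c → Fˣ // tval L (fun i => (u i : F)) = 1}) := by
  classical
  have := Fintype.ofFinite F
  let V := Fin a ⊕ Fin b ⊕ Fin c
  have hfA : Finite (Aff F) := Finite.of_equiv _ Aff.equivProd.symm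
  have h1 : Nat.card (PresentedGroup {relator L} →* (F ≃ᵃ[F] F)) =
      Nat.card ((V → F) × {z : (V → Fˣ) × (Aff F × Aff F) //
        tval L (fun i => (z.1 i : F)) = 1 ∨ Aff.cm z.2.1 z.2.2 = 0}) := by
    rw [← Nat.card_congr (homCongr (affEquiv F)), Nat.card_congr (presEquiv _)]
    apply Nat.card_congr
    exact
      { toFun := fun f => (fun i => (f.1 (Sum.inl i)).tr, ⟨(fun i => (f.1 (Sum.inl i)).lin,
          (f.1 (Sum.inr 0), f.1 (Sum.inr 1))), by
            have h2 := f.2 _ rfl
            rw [lift_relator, Aff.eq_one_iff] at h2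
            have h3 := h2.2
            change _ * _ = (0 : F) at h3
            rw [mul_eq_zero, sub_eq_zero] at h3
            exact h3⟩)
        invFun := fun w => ⟨Sum.elim (fun i => ⟨w.2.1.1 i, w.1 i⟩) ![w.2.1.2.1, w.2.1.2.2], by
          rintro r rfl
          rw [lift_relator, Aff.eq_one_iff]
          refine ⟨rfl, ?_⟩
          change _ * _ = (0 : F)
          rw [mul_eq_zero, sub_eq_zero]
          exact w.2.2⟩
        left_inv := fun f => by
          apply Subtype.ext
          funext i
          rcases i with i | i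
          · rfl
          · fin_cases i
            · rfl
            · rfl
        right_inv := fun w => rfl }
  rw [h1, Nat.card_prod, card_or (fun u : V → Fˣ => tval L (fun i => (u i : F)) = 1)
    (fun y : Aff F × Aff F => Aff.cm y.1 y.2 = 0), card_comm_pairs, Nat.card_prod,
    Nat.card_congr (Aff.equivProd (B := F)), Nat.card_prod, Nat.card_units, Nat.card_fun,
    Nat.card_eq_fintype_card (α := V)]
  have hV : Fintype.card V = a + b + c := by
    change Fintype.card (Fin a ⊕ Fin b ⊕ Fin c) = _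
    rw [Fintype.card_sum, Fintype.card_sum, Fintype.card_fin, Fintype.card_fin, Fintype.card_fin,
      add_assoc]
  have h2 : Nat.card {x : V → Fˣ // ¬ tval L (fun i => (x i : F)) = 1} +
      Nat.card {x : V → Fˣ // tval L (fun i => (x i : F)) = 1} = (Nat.card F - 1) ^ (a + b + c) := by
    rw [← hV, ← Nat.card_eq_fintype_card (α := V), ← Nat.card_units, ← Nat.card_fun, add_comm,
      ← Nat.card_sum]
    exact Nat.card_congr (Equiv.sumCompl _)
  have h3 : 1 ≤ Nat.card F := Nat.card_pos
  have h4 : ((Nat.card F - 1 : ℕ) : ℤ) = (Nat.card F : ℤ) - 1 := by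
    push_cast [Nat.cast_sub h3]
    rfl
  have h5 := congrArg (Nat.cast : ℕ → ℤ) h2
  rw [Nat.cast_add, Nat.cast_pow, h4] at h5
  rw [hV]
  push_cast
  rw [h4]
  linear_combination ((Nat.card F : ℤ) ^ (a + b + c) * ((Nat.card F : ℤ) ^ 2 *
    ((Nat.card F : ℤ) - 1))) * h5

end field

end Pool.Agent.H440.WG
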