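import Pool.Agent.H440.WG.Fg
import Pool.Graph.R_pool_sql_team_seeded_3997aac3.Results.MP_039d94_nt.ZeroOneMatrices

/-!
# Schemes and one-relator groups
-/

set_option autoImplicit false

namespace Pool.Agent.H440.WG

open Q54.ZE MvPolynomial Pool.Agent.Y116.UV CategoryTheory AlgebraicGeometry
open Pool.Agent.Results.MP_039d94_nt.ZeroOneMatrices Pool.Agent.Q27.BG2

variable {S : Set ℂ}

lemma continues_aff (Γ : Type) [Group Γ] :
    ContinuesIn S (affZeta Γ) ↔ MerC S fun x => (affCount Γ x : ℂ) :=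
  ⟨fun ⟨F, hF, h⟩ => ⟨F, ⟨hF.1, hF.2⟩, h⟩, fun ⟨F, hF, h⟩ => ⟨F, ⟨hF.mero, hF.order⟩, h⟩⟩

/-- The groups `⟨x_i, y_j, z_k, t, u | [t, u] = ∏ [t, u]^(x_i y_j z_k)⟩`. -/
def TripleGroups (S : Set ℂ) (c : ℕ) : Prop :=
  ∀ (l m n : ℕ) (L : List (Fin l × Fin m × Fin n)), n ≤ c →
    ContinuesIn S (affZeta (PresentedGroup {relator L}))

section trip

variable {a b c : ℕ}

lemma homCount_trip (H : Finset (Fin a × Fin b × Fin c)) (x : Nat.Primes × ℕ) :
    homCount (Trip ℤ H) x = cntC H.toList x := by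
  have : Fact x.1.1.Prime := ⟨x.1.2⟩
  refine Nat.card_congr ((quotHom _).trans (Equiv.subtypeEquivRight fun v => ?_))
  have h1 : MvPolynomial.aeval v (∑ h ∈ H, X (Sum.inl h.1) * X (Sum.inr (Sum.inl h.2.1)) *
      X (Sum.inr (Sum.inr h.2.2)) - (1 : MvPolynomial (Fin a ⊕ (Fin b ⊕ Fin c)) ℤ)) =
      tval H.toList v - 1 := by
    rw [map_sub, map_one, map_sum, tval, Finset.sum_map_toList]
    congr 1
    apply Finset.sum_congr rfl
    intro h _
    rw [map_mul, map_mul, aeval_X, aeval_X, aeval_X]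
  constructor
  · intro h
    have h2 := h _ rfl
    rw [h1] at h2
    exact sub_eq_zero.1 h2
  · rintro h _ rfl
    rw [h1, h, sub_self]

/-- The coefficients of a list. -/
def coeffs (L : List (Fin a × Fin b × Fin c)) : Fin a → Fin b → Fin c → ℤ :=
  fun i j k => (L.count (i, j, k) : ℤ)

lemma count_inst {α : Type} (i1 i2 : BEq α) [@LawfulBEq α i1] [@LawfulBEq α i2] (x : α)
    (l : List α) : @List.count α i1 x l = @List.count α i2 x l := by
  unfold List.count
  apply List.countP_congr
  intro y _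
  have h1 : (@BEq.beq α i1 y x = true) ↔ y = x := @beq_iff_eq α i1 _ y x
  have h2 : (@BEq.beq α i2 y x = true) ↔ y = x := @beq_iff_eq α i2 _ y x
  rw [h1, h2]

/-- The trilinear form as a sum over the triples. -/
lemma tval_sum {R : Type} [CommRing R] (L : List (Fin a × Fin b × Fin c))
    (v : Fin a ⊕ Fin b ⊕ Fin c → R) :
    tval L v = ∑ i : Fin a, ∑ j : Fin b, ∑ k : Fin c, (L.count (i, j, k) : R) *
      (v (Sum.inl i) * v (Sum.inr (Sum.inl j)) * v (Sum.inr (Sum.inr k))) := by
  have h1 : (∑ i : Fin a, ∑ j : Fin b, ∑ k : Fin c, (L.count (i, j, k) : R) *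
      (v (Sum.inl i) * v (Sum.inr (Sum.inl j)) * v (Sum.inr (Sum.inr k)))) =
      ∑ h : Fin a × Fin b × Fin c, (L.count h : R) *
        (v (Sum.inl h.1) * v (Sum.inr (Sum.inl h.2.1)) * v (Sum.inr (Sum.inr h.2.2))) := by
    rw [Fintype.sum_prod_type]
    apply Finset.sum_congr rfl
    intro i _
    rw [Fintype.sum_prod_type]
  rw [h1, tval, Finset.sum_list_map_count]
  have h2 : ∀ h ∈ (Finset.univ : Finset (Fin a × Fin b × Fin c)), h ∉ L.toFinset →
      (L.count h : R) * (v (Sum.inl h.1) * v (Sum.inr (Sum.inl h.2.1)) *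
        v (Sum.inr (Sum.inr h.2.2))) = 0 := by
    intro h _ hh
    rw [List.mem_toFinset] at hh
    rw [List.count_eq_zero_of_not_mem hh, Nat.cast_zero, zero_mul]
  rw [← Finset.sum_subset (Finset.subset_univ L.toFinset) h2]
  apply Finset.sum_congr rfl
  intro h _
  rw [nsmul_eq_mul]
  refine congrArg (fun n : ℕ => (n : R) * (v (Sum.inl h.1) * v (Sum.inr (Sum.inl h.2.1)) *
    v (Sum.inr (Sum.inr h.2.2)))) ?_
  exact @count_inst _ instBEqOfDecidableEq instBEqProd inferInstance inferInstance h L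

/-- The value of the form with the given coefficients. -/
lemma aeval_tri {R : Type} [CommRing R] (L : List (Fin a × Fin b × Fin c))
    (v : Fin a ⊕ Fin b ⊕ Fin c → R) :
    MvPolynomial.aeval v (tri (coeffs L)) = tval L v := by
  rw [tval_sum, tri, map_sum]
  apply Finset.sum_congr rfl
  intro i _
  rw [map_sum]
  apply Finset.sum_congr rfl
  intro j _
  rw [map_sum]
  apply Finset.sum_congr rfl
  intro k _
  rw [map_mul, map_mul, map_mul, aeval_X, aeval_X, aeval_X, aeval_C]
  simp only [coeffs, algebraMap_int_eq, eq_intCast, Int.cast_natCast]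
  ring

lemma homCount_hyp (L : List (Fin a × Fin b × Fin c)) (x : Nat.Primes × ℕ) :
    homCount (Hyp (coeffs L)) x = cntC L x := by
  have : Fact x.1.1.Prime := ⟨x.1.2⟩
  refine Nat.card_congr ((quotHom _).trans (Equiv.subtypeEquivRight fun v => ?_))
  have h1 : MvPolynomial.aeval v (tri (coeffs L) - 1) = tval L v - 1 := by
    rw [map_sub, map_one]
    exact congrArg (fun z => z - 1) (aeval_tri L v)
  constructor
  · intro h
    have h2 := h _ rfl
    rw [h1] at h2
    exact sub_eq_zero.1 h2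
  · rintro h _ rfl
    rw [h1, h, sub_self]

end trip

lemma homCount_int (x : Nat.Primes × ℕ) : homCount ℤ x = 1 :=
  Nat.card_eq_one_iff_unique.2 ⟨inferInstance, ⟨Int.castRingHom _⟩⟩

lemma mer_int : Mer S (idN (maxS ℤ)) ↔ MerC S fun _ => 1 := by
  rw [merC_hom]
  simp only [homCount_int, Nat.cast_one]

lemma mer_one_of {c : ℕ} (hS : Tr S) (h : TripleGroups S c) : MerC S fun _ => 1 :=
  mer_one hS ((continues_aff _).1 (h 0 0 0 [] (Nat.zero_le _)))

/-- From the groups to the hypersurfaces. -/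
lemma trip_of_groups {c : ℕ} (hS : Tr S) (h : TripleGroups S c) (a b : ℕ)
    (H : Finset (Fin a × Fin b × Fin c)) : ZMer S (tripS ℤ H) := by
  have h1 := mer_one_of hS h
  have h2 : MerC S fun x => (cntC H.toList x : ℂ) := mer_C hS _ fun I =>
    (mer_relator hS h1 _).1 ((continues_aff _).1 (h a b c (sub I H.toList) le_rfl))
  have h3 : Mer S (idN (maxS (Trip ℤ H))) := merC_hom.2 (h2.congr fun x => by
    rw [homCount_trip])
  exact (zmer_aff (Trip ℤ H)).2 h3

/-- From the groups to the schemes with fibres of dimension at most `n`. -/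
theorem all_of_groups {n : ℕ} (hS : Tr S) (h : TripleGroups S (n + 2)) : AllSchemes S n :=
  (allSchemes_iff S n).2 (((fib_main_sep (bnd_zmer hS (mer_int.2 (mer_one_of hS h))) n).out 2 1).1
    (trip_of_groups hS h))

/-- From the schemes with fibres of dimension at most `n` to the groups. -/
theorem groups_of_all {n : ℕ} (hS : Tr S) (h : AllSchemes S n) : TripleGroups S (n + 2) := by
  intro l m k L hk
  have h0 : Blocks S (n + 2) := ((result S hS n).1.out 0 2).1 h
  have h1 : MerC S fun _ => 1 := mer_int.1 (mer_of_all h)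
  rw [continues_aff, mer_relator hS h1]
  refine mer_W hS L fun I => ?_
  have h2 : ZMer S (hypS (coeffs (sub I L))) :=
    (blocks_iff S (n + 2)).1 h0 l m k (coeffs (sub I L)) (Or.inr (Or.inr hk))
  have h3 := merC_hom.1 ((zmer_aff (Hyp (coeffs (sub I L)))).1 h2)
  exact h3.congr fun x => by rw [homCount_hyp]

/-- All schemes of finite type over the integers. -/
def FiniteTypeSchemes (S : Set ℂ) : Prop :=
  ∀ (X : Scheme.{0}) (f : X ⟶ Spec (CommRingCat.of ℤ)),
    LocallyOfFiniteType f → QuasiCompact f → ContinuesIn S (zeta X)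

/-- All finitely generated groups. -/
def FinitelyGenerated (S : Set ℂ) : Prop :=
  ∀ (Γ : Type) [Group Γ] [Group.FG Γ], ContinuesIn S (affZeta Γ)

/-- All groups with one relator. -/
def OneRelator (S : Set ℂ) : Prop :=
  ∀ (α : Type) [Finite α] (r : FreeGroup α), ContinuesIn S (affZeta (PresentedGroup {r}))

theorem finiteType_of_groups (hS : Tr S) (h : ∀ c, TripleGroups S c) : FiniteTypeSchemes S := by
  intro X f h1 h2
  exact (continues_iff S (Over.mk f)).2 (all_of_trip hS
    (fun a b c H => trip_of_groups hS (h c) a b H) (Over.mk f) ⟨h1, h2, fun h => h.elim⟩)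

theorem groups_of_finiteType (h : FiniteTypeSchemes S) : FinitelyGenerated S := by
  intro Γ _ _
  obtain ⟨k, R, hR⟩ := exists_ring Γ
  have h1 : FT False (aff ℤ (HomRing R)) := ft_aff False
  have h2 : ZMer S (aff ℤ (HomRing R)) := (continues_iff S _).1
    (h _ (aff ℤ (HomRing R)).hom h1.locallyOfFiniteType h1.quasiCompact)
  have h3 := merC_hom.1 ((zmer_aff (HomRing R)).1 h2)
  exact (continues_aff Γ).2 (h3.congr fun x => by rw [hR])

lemma fg_presented {α : Type} [Finite α] (R : Set (FreeGroup α)) : Group.FG (PresentedGroup R) := by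
  have h1 : Group.FG (FreeGroup α) := inferInstance
  exact Group.fg_of_surjective (f := PresentedGroup.mk R) (PresentedGroup.mk_surjective R)

theorem oneRelator_of_finGen (h : FinitelyGenerated S) : OneRelator S := by
  intro α _ r
  have := fg_presented ({r} : Set (FreeGroup α))
  exact h _

theorem triple_of_oneRelator (h : OneRelator S) (c : ℕ) : TripleGroups S c :=
  fun _ _ _ L _ => h _ (relator L)

end Pool.Agent.H440.WG
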