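import Pool.Graph.R_pool_sql_team_seeded_3997aac3.Q54.ZE.Zet3

/-!
# Exponentials of Dirichlet series of numbers attached to the finite fields

`MerC S N`: the function `exp (∑_p ∑_m N(p^m) p^(-m s) / m)` continues to a meromorphic function in the
plane with all zeros and poles in `S`.
-/

set_option autoImplicit false

namespace Pool.Agent.H440.WG

open Complex Q54.ZE

/-- The number of elements of the field. -/
noncomputable def qc (x : Nat.Primes × ℕ) : ℂ := (ppow x : ℂ)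

/-- The term of the logarithm. -/
noncomputable def term (N : Nat.Primes × ℕ → ℂ) (s : ℂ) (x : Nat.Primes × ℕ) : ℂ :=
  N x / ((x.2 : ℂ) + 1) * ((x.1.1 : ℂ) ^ (-(((x.2 : ℂ) + 1) * s)))

/-- The logarithm. -/
noncomputable def ser (N : Nat.Primes × ℕ → ℂ) (s : ℂ) : ℂ := ∑' x, term N s x

/-- Polynomial growth. -/
def BdR (N : Nat.Primes × ℕ → ℂ) (r : ℕ) : Prop := ∀ x, ‖N x‖ ≤ (ppow x : ℝ) ^ r

/-- Polynomial growth. -/
def Bd (N : Nat.Primes × ℕ → ℂ) : Prop := ∃ r : ℕ, BdR N r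

/-- The meromorphic continuation, with zeros and poles in `S`. -/
def MerC (S : Set ℂ) (N : Nat.Primes × ℕ → ℂ) : Prop :=
  ∃ F : ℂ → ℂ, NoDiv S F ∧ ∃ τ : ℝ, ∀ s : ℂ, τ < s.re → F s = exp (ser N s)

lemma ppow_pos (x : Nat.Primes × ℕ) : 0 < ppow x := pow_pos x.1.2.pos _

lemma two_le_ppow (x : Nat.Primes × ℕ) : 2 ≤ ppow x :=
  x.1.2.two_le.trans (Nat.le_self_pow (by omega) _)

lemma cp (s : ℂ) (x : Nat.Primes × ℕ) :
    (x.1.1 : ℂ) ^ (-(((x.2 : ℂ) + 1) * s)) = (ppow x : ℂ) ^ (-s) := by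
  have h6 : -(((x.2 : ℂ) + 1) * s) = ((x.2 + 1 : ℕ) : ℂ) * (-s) := by
    push_cast
    ring
  rw [h6, Complex.natCast_cpow_natCast_mul]
  unfold ppow
  push_cast
  rfl

lemma term_eq (N : Nat.Primes × ℕ → ℂ) (s : ℂ) (x : Nat.Primes × ℕ) :
    term N s x = N x / ((x.2 : ℂ) + 1) * (ppow x : ℂ) ^ (-s) := by
  rw [term, cp]

lemma summable_two : Summable fun x : Nat.Primes × ℕ => (ppow x : ℝ) ^ (-2 : ℝ) :=
  (Real.summable_nat_rpow.2 (by norm_num : (-2 : ℝ) < -1)).comp_injective ppow_inj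

lemma norm_term_le {N : Nat.Primes × ℕ → ℂ} {r : ℕ} (hN : BdR N r) {s : ℂ}
    (hs : (r : ℝ) + 2 ≤ s.re) (x : Nat.Primes × ℕ) : ‖term N s x‖ ≤ (ppow x : ℝ) ^ (-2 : ℝ) := by
  have h0 : (0 : ℝ) < ppow x := by exact_mod_cast ppow_pos x
  have h1 : (1 : ℝ) ≤ ppow x := by exact_mod_cast ppow_pos x
  have h2 : (1 : ℝ) ≤ ‖(x.2 : ℂ) + 1‖ := by
    have h3 : ((x.2 : ℂ) + 1) = ((x.2 + 1 : ℕ) : ℂ) := by push_cast; rfl
    rw [h3, Complex.norm_natCast]
    exact_mod_cast (by omega : 1 ≤ x.2 + 1)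
  rw [term_eq, norm_mul, norm_div, norm_natCast_cpow_of_pos (ppow_pos x), neg_re]
  calc ‖N x‖ / ‖(x.2 : ℂ) + 1‖ * (ppow x : ℝ) ^ (-s.re)
      ≤ ‖N x‖ / 1 * (ppow x : ℝ) ^ (-s.re) := by gcongr
    _ ≤ (ppow x : ℝ) ^ r * (ppow x : ℝ) ^ (-s.re) := by
        rw [div_one]
        gcongr
        exact hN x
    _ = (ppow x : ℝ) ^ ((r : ℝ) + -s.re) := by
        rw [← Real.rpow_natCast, ← Real.rpow_add h0]
    _ ≤ (ppow x : ℝ) ^ (-2 : ℝ) := Real.rpow_le_rpow_of_exponent_le h1 (by linarith)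

lemma summable_term {N : Nat.Primes × ℕ → ℂ} {r : ℕ} (hN : BdR N r) {s : ℂ}
    (hs : (r : ℝ) + 2 ≤ s.re) : Summable (term N s) :=
  Summable.of_norm_bounded summable_two (norm_term_le hN hs)

lemma analytic_ser {N : Nat.Primes × ℕ → ℂ} {r : ℕ} (hN : BdR N r) {s : ℂ}
    (hs : (r : ℝ) + 2 < s.re) : AnalyticAt ℂ (ser N) s := by
  have hU : IsOpen {z : ℂ | (r : ℝ) + 2 < z.re} := isOpen_lt continuous_const continuous_re
  have h1 : DifferentiableOn ℂ (fun w => ∑' x, term N w x) {z : ℂ | (r : ℝ) + 2 < z.re} := by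
    refine Complex.differentiableOn_tsum_of_summable_norm summable_two (fun x => ?_) hU
      (fun x w hw => norm_term_le hN (le_of_lt hw) x)
    have h2 : (fun w => term N w x) = fun w => N x / ((x.2 : ℂ) + 1) * (ppow x : ℂ) ^ (-w) := by
      funext w
      exact term_eq N w x
    rw [h2]
    have h3 : (ppow x : ℂ) ≠ 0 := by exact_mod_cast (ppow_pos x).ne'
    have h4 : Differentiable ℂ fun w : ℂ => (ppow x : ℂ) ^ (-w) := by
      intro w
      exact (differentiableAt_id.neg).const_cpow (Or.inl h3)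
    exact (h4.const_mul _).differentiableOn
  exact h1.analyticAt (hU.mem_nhds hs)

lemma ser_shift (N : Nat.Primes × ℕ → ℂ) (k : ℕ) (s : ℂ) :
    ser (fun x => qc x ^ k * N x) s = ser N (s - k) := by
  unfold ser
  apply tsum_congr
  intro x
  rw [term_eq, term_eq, qc]
  have h3 : (ppow x : ℂ) ≠ 0 := by exact_mod_cast (ppow_pos x).ne'
  have h4 : -(s - (k : ℂ)) = (k : ℂ) + -s := by ring
  rw [h4, Complex.cpow_add _ _ h3, Complex.cpow_natCast]
  ring

lemma BdR.mono {N : Nat.Primes × ℕ → ℂ} {r t : ℕ} (h : BdR N r) (hrt : r ≤ t) : BdR N t := by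
  intro x
  have h1 : (1 : ℝ) ≤ ppow x := by exact_mod_cast ppow_pos x
  exact (h x).trans (pow_le_pow_right₀ h1 hrt)

lemma Bd.add {N M : Nat.Primes × ℕ → ℂ} (h : Bd N) (h' : Bd M) : Bd (N + M) := by
  obtain ⟨r, h⟩ := h
  obtain ⟨t, h'⟩ := h'
  refine ⟨max r t + 1, fun x => ?_⟩
  have h1 : (2 : ℝ) ≤ ppow x := by exact_mod_cast two_le_ppow x
  have h2 := (h.mono (le_max_left r t)) x
  have h3 := (h'.mono (le_max_right r t)) x
  rw [Pi.add_apply]
  calc ‖N x + M x‖ ≤ ‖N x‖ + ‖M x‖ := norm_add_le _ _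
    _ ≤ (ppow x : ℝ) ^ max r t + (ppow x : ℝ) ^ max r t := add_le_add h2 h3
    _ = (ppow x : ℝ) ^ max r t * 2 := by ring
    _ ≤ (ppow x : ℝ) ^ max r t * ppow x := by gcongr
    _ = (ppow x : ℝ) ^ (max r t + 1) := (pow_succ _ _).symm

lemma Bd.neg {N : Nat.Primes × ℕ → ℂ} (h : Bd N) : Bd (-N) := by
  obtain ⟨r, h⟩ := h
  exact ⟨r, fun x => by rw [Pi.neg_apply, norm_neg]; exact h x⟩

lemma Bd.mul {N M : Nat.Primes × ℕ → ℂ} (h : Bd N) (h' : Bd M) : Bd (fun x => N x * M x) := by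
  obtain ⟨r, h⟩ := h
  obtain ⟨t, h'⟩ := h'
  refine ⟨r + t, fun x => ?_⟩
  rw [norm_mul, pow_add]
  exact mul_le_mul (h x) (h' x) (norm_nonneg _) (by positivity)

lemma bd_qc : Bd qc := ⟨1, fun x => by rw [qc, Complex.norm_natCast, pow_one]⟩

lemma bd_nat (k : ℕ) : Bd fun _ => (k : ℂ) := by
  refine ⟨k, fun x => ?_⟩
  rw [Complex.norm_natCast]
  have h1 : (2 : ℝ) ≤ ppow x := by exact_mod_cast two_le_ppow x
  have h2 : (k : ℝ) ≤ (2 : ℝ) ^ k := by exact_mod_cast (Nat.lt_two_pow_self).le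
  exact h2.trans (pow_le_pow_left₀ (by norm_num) h1 k)

lemma bd_int (k : ℤ) : Bd fun _ => (k : ℂ) := by
  obtain ⟨n, rfl | rfl⟩ := k.eq_nat_or_neg
  · simpa using bd_nat n
  · have := (bd_nat n).neg
    refine (congrArg Bd ?_).mp this
    funext x
    simp

lemma bd_pow {N : Nat.Primes × ℕ → ℂ} (h : Bd N) (k : ℕ) : Bd (fun x => N x ^ k) := by
  induction k with
  | zero =>
    have := bd_nat 1
    simpa using this
  | succ k ih =>
    simp only [pow_succ]
    exact ih.mul h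

/-- Numbers of points are bounded by a power of the order of the field. -/
lemma bd_of_le {N : Nat.Primes × ℕ → ℕ} {r : ℕ} (h : ∀ x, N x ≤ ppow x ^ r) :
    Bd fun x => (N x : ℂ) := by
  refine ⟨r, fun x => ?_⟩
  rw [Complex.norm_natCast]
  exact_mod_cast h x

variable {S : Set ℂ}

lemma MerC.congr {N M : Nat.Primes × ℕ → ℂ} (h : MerC S N) (e : ∀ x, M x = N x) : MerC S M := by
  have : M = N := funext e
  rwa [this]

lemma ser_add {N M : Nat.Primes × ℕ → ℂ} {r : ℕ} (h : BdR N r) (h' : BdR M r) {s : ℂ}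
    (hs : (r : ℝ) + 2 ≤ s.re) : ser (N + M) s = ser N s + ser M s := by
  unfold ser
  rw [← (summable_term h hs).tsum_add (summable_term h' hs)]
  apply tsum_congr
  intro x
  rw [term, term, term, Pi.add_apply]
  ring

lemma MerC.add {N M : Nat.Primes × ℕ → ℂ} (hN : Bd N) (hM : Bd M) (h : MerC S N)
    (h' : MerC S M) : MerC S (N + M) := by
  obtain ⟨r, hr⟩ := hN
  obtain ⟨t, ht⟩ := hM
  obtain ⟨F, hF, τ, h1⟩ := h
  obtain ⟨G, hG, ρ, h2⟩ := h'
  refine ⟨F * G, hF.mul hG, max (max τ ρ) ((max r t : ℕ) + 2), fun s hs => ?_⟩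
  rw [max_lt_iff, max_lt_iff] at hs
  rw [Pi.mul_apply, h1 s hs.1.1, h2 s hs.1.2, ← Complex.exp_add,
    ser_add (hr.mono (le_max_left r t)) (ht.mono (le_max_right r t)) hs.2.le]

lemma noDiv_one (S : Set ℂ) : NoDiv S (1 : ℂ → ℂ) := by
  refine ⟨?_, fun s _ => ?_⟩
  · exact fun s _ => (MeromorphicAt.const (1 : ℂ) s)
  · have h : AnalyticAt ℂ (1 : ℂ → ℂ) s := analyticAt_const
    rw [h.meromorphicOrderAt_eq, h.analyticOrderAt_eq_zero.2 one_ne_zero]
    rfl

lemma MerC.neg {N : Nat.Primes × ℕ → ℂ} (h : MerC S N) : MerC S (-N) := by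
  obtain ⟨F, hF, τ, h1⟩ := h
  refine ⟨1 / F, (noDiv_one S).div hF, τ, fun s hs => ?_⟩
  have h2 : ser (-N) s = -ser N s := by
    unfold ser
    rw [← tsum_neg]
    apply tsum_congr
    intro x
    rw [term, term, Pi.neg_apply]
    ring
  rw [Pi.div_apply, Pi.one_apply, h1 s hs, h2, Complex.exp_neg, one_div]

lemma MerC.sub {N M : Nat.Primes × ℕ → ℂ} (hN : Bd N) (hM : Bd M) (h : MerC S N)
    (h' : MerC S M) : MerC S (N - M) := by
  rw [sub_eq_add_neg]
  exact h.add hN hM.neg h'.neg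

lemma merC_zero (S : Set ℂ) : MerC S (0 : Nat.Primes × ℕ → ℂ) := by
  refine ⟨1, noDiv_one S, 0, fun s _ => ?_⟩
  have h : ser (0 : Nat.Primes × ℕ → ℂ) s = 0 := by
    unfold ser
    have h1 : ∀ x, term (0 : Nat.Primes × ℕ → ℂ) s x = 0 := by
      intro x
      rw [term, Pi.zero_apply]
      ring
    rw [tsum_congr h1, tsum_zero]
  rw [h, Complex.exp_zero, Pi.one_apply]

lemma merC_sum {ι : Type} (T : Finset ι) (N : ι → Nat.Primes × ℕ → ℂ) (hb : ∀ i, Bd (N i))
    (h : ∀ i ∈ T, MerC S (N i)) : MerC S (∑ i ∈ T, N i) ∧ Bd (∑ i ∈ T, N i) := by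
  classical
  induction T using Finset.induction_on with
  | empty =>
    rw [Finset.sum_empty]
    exact ⟨merC_zero S, 0, fun x => by simp⟩
  | insert i T hi ih =>
    rw [Finset.sum_insert hi]
    have h1 := ih fun j hj => h j (Finset.mem_insert_of_mem hj)
    exact ⟨(h i (Finset.mem_insert_self i T)).add (hb i) h1.2 h1.1, (hb i).add h1.2⟩

lemma MerC.nat_mul {N : Nat.Primes × ℕ → ℂ} (hN : Bd N) (h : MerC S N) (k : ℕ) :
    MerC S fun x => (k : ℂ) * N x := by
  induction k with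
  | zero => exact (merC_zero S).congr fun x => by simp
  | succ k ih =>
    exact (ih.add ((bd_nat k).mul hN) hN h).congr fun x => by
      rw [Pi.add_apply]
      push_cast
      ring

lemma MerC.shift (hS : Tr S) {N : Nat.Primes × ℕ → ℂ} (h : MerC S N) (k : ℕ) :
    MerC S fun x => qc x ^ k * N x := by
  obtain ⟨F, hF, τ, h1⟩ := h
  refine ⟨fun s => F (s - k), hF.sub hS k, τ + k, fun s hs => ?_⟩
  rw [ser_shift]
  apply h1
  rw [sub_re, Complex.natCast_re]
  linarith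

lemma MerC.unshift (hS : Tr S) {N : Nat.Primes × ℕ → ℂ} (k : ℕ)
    (h : MerC S fun x => qc x ^ k * N x) : MerC S N := by
  obtain ⟨F, hF, τ, h1⟩ := h
  refine ⟨fun s => F (s + k), hF.add hS k, τ, fun s hs => ?_⟩
  have h2 : (s + (k : ℂ)) - k = s := by ring
  change F (s + k) = _
  rw [h1 (s + k) (by
    rw [add_re, Complex.natCast_re]
    have : (0 : ℝ) ≤ k := Nat.cast_nonneg k
    linarith), ser_shift, h2]

lemma NoDiv.pow {F : ℂ → ℂ} (hF : NoDiv S F) (n : ℕ) : NoDiv S (fun s => F s ^ n) := by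
  induction n with
  | zero =>
    have h : (fun s : ℂ => F s ^ 0) = (1 : ℂ → ℂ) := by
      funext s
      rw [pow_zero, Pi.one_apply]
    rw [h]
    exact noDiv_one S
  | succ n ih =>
    have h : (fun s : ℂ => F s ^ (n + 1)) = (fun s => F s ^ n) * F := by
      funext s
      rw [pow_succ, Pi.mul_apply]
    rw [h]
    exact ih.mul hF

lemma noDiv_prod {G : ℕ → ℂ → ℂ} (hG : ∀ k, NoDiv S (G k)) (n : ℕ) :
    NoDiv S fun s => ∏ k ∈ Finset.range n, G k s := by
  induction n with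
  | zero =>
    have h : (fun s : ℂ => ∏ k ∈ Finset.range 0, G k s) = (1 : ℂ → ℂ) := by
      funext s
      rw [Finset.prod_range_zero, Pi.one_apply]
    rw [h]
    exact noDiv_one S
  | succ n ih =>
    have h : (fun s : ℂ => ∏ k ∈ Finset.range (n + 1), G k s) =
        (fun s => ∏ k ∈ Finset.range n, G k s) * G n := by
      funext s
      rw [Finset.prod_range_succ, Pi.mul_apply]
    rw [h]
    exact ih.mul (hG n)

/-- The exponential of the logarithm in the half plane of convergence. -/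
lemma exp_ser_ok {N : Nat.Primes × ℕ → ℂ} {r : ℕ} (hN : BdR N r) {s : ℂ}
    (hs : (r : ℝ) + 2 < s.re) : MeromorphicAt (fun z => exp (ser N z)) s ∧
      meromorphicOrderAt (fun z => exp (ser N z)) s = 0 := by
  have h2 : AnalyticAt ℂ (fun z => exp (ser N z)) s := (analytic_ser hN hs).cexp
  refine ⟨h2.meromorphicAt, ?_⟩
  rw [h2.meromorphicOrderAt_eq, h2.analyticOrderAt_eq_zero.2 (Complex.exp_ne_zero _)]
  rfl

/-- **Division by `q - c`.** -/
theorem MerC.unfold (hS : Tr S) {N : Nat.Primes × ℕ → ℂ} (hN : Bd N) (c : ℕ)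
    (h : MerC S fun x => (qc x - c) * N x) : MerC S N := by
  obtain ⟨r, hr⟩ := hN
  obtain ⟨G, hG, τ', hG2⟩ := h
  let σ : ℝ := (r : ℝ) + 2
  let τ : ℝ := max τ' (σ + 1)
  have hτ : σ + 1 ≤ τ := le_max_right _ _
  let E : ℂ → ℂ := fun s => exp (ser N s)
  have hser : ∀ s : ℂ, τ < s.re → ser (fun x => (qc x - c) * N x) s =
      ser N (s - 1) - c * ser N s := by
    intro s hs
    have h1 := summable_term hr (s := s - 1) (by
      rw [sub_re, one_re]
      change σ ≤ _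
      linarith)
    have h2 := summable_term hr (s := s) (by
      change σ ≤ _
      linarith)
    have h3 := h1.tsum_sub (h2.mul_left (c : ℂ))
    rw [tsum_mul_left] at h3
    unfold ser
    rw [← h3]
    apply tsum_congr
    intro x
    rw [term_eq, term_eq, term_eq, qc]
    have h3 : (ppow x : ℂ) ≠ 0 := by exact_mod_cast (ppow_pos x).ne'
    have h4 : -(s - 1) = 1 + -s := by ring
    rw [h4, Complex.cpow_add _ _ h3, Complex.cpow_one]
    ring
  have hE : ∀ s : ℂ, τ < s.re → G s * E s ^ c = E (s - 1) := by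
    intro s hs
    rw [hG2 s ((le_max_left _ _).trans_lt hs), hser s hs]
    change exp (ser N (s - 1) - c * ser N s) * exp (ser N s) ^ c = exp (ser N (s - 1))
    rw [← Complex.exp_nat_mul, ← Complex.exp_add, sub_add_cancel]
  let F : ℕ → ℂ → ℂ := fun n s => E (s + n) ^ (c ^ n) *
    ∏ k ∈ Finset.range n, G (s + ((k + 1 : ℕ) : ℂ)) ^ (c ^ k)
  have hF : ∀ (n : ℕ) (s : ℂ), τ < s.re + n + 1 → F (n + 1) s = F n s := by
    intro n s hs
    change E (s + ((n + 1 : ℕ) : ℂ)) ^ (c ^ (n + 1)) *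
      ∏ k ∈ Finset.range (n + 1), G (s + ((k + 1 : ℕ) : ℂ)) ^ (c ^ k) =
      E (s + n) ^ (c ^ n) * ∏ k ∈ Finset.range n, G (s + ((k + 1 : ℕ) : ℂ)) ^ (c ^ k)
    rw [Finset.prod_range_succ]
    have h2 := hE (s + ((n + 1 : ℕ) : ℂ)) (by
      rw [add_re, Complex.natCast_re]
      push_cast
      linarith)
    have h3 : s + ((n + 1 : ℕ) : ℂ) - 1 = s + n := by
      push_cast
      ring
    rw [h3] at h2
    rw [← h2, mul_pow, ← pow_mul, ← pow_succ']
    ring
  have hF2 : ∀ (n m : ℕ) (s : ℂ), n ≤ m → τ < s.re + n + 1 → F m s = F n s := by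
    intro n m s hnm hs
    induction m, hnm using Nat.le_induction with
    | base => rfl
    | succ m hm ih =>
      rw [hF m s, ih]
      have : (n : ℝ) ≤ m := by exact_mod_cast hm
      linarith
  let n : ℂ → ℕ := fun s => ⌈τ - s.re⌉₊ + 1
  have hn : ∀ s, τ < s.re + n s := by
    intro s
    have h2 := Nat.le_ceil (τ - s.re)
    change τ < s.re + ((⌈τ - s.re⌉₊ + 1 : ℕ) : ℝ)
    push_cast
    linarith
  have key : ∀ s₀ : ℂ, ∃ m, (fun s => F (n s) s) =ᶠ[nhdsWithin s₀ {s₀}ᶜ] F m ∧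
      MeromorphicAt (F m) s₀ ∧ (s₀ ∉ S → meromorphicOrderAt (F m) s₀ = 0) := by
    intro s₀
    let m := n s₀ + 1
    have h4 : (m : ℝ) = n s₀ + 1 := by
      change ((n s₀ + 1 : ℕ) : ℝ) = _
      push_cast
      rfl
    have hre : σ < (s₀ + m).re := by
      rw [add_re, Complex.natCast_re, h4]
      linarith [hn s₀]
    have h2 : MeromorphicAt (fun s => E (s + m)) s₀ :=
      MeromorphicAt.comp_analyticAt (f := E) (g := fun s => s + m) (exp_ser_ok hr hre).1
        (by fun_prop)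
    have h2' : MeromorphicAt (fun s => E (s + m) ^ (c ^ m)) s₀ := h2.pow _
    have h5 : NoDiv S fun s => ∏ k ∈ Finset.range m, G (s + ((k + 1 : ℕ) : ℂ)) ^ (c ^ k) :=
      noDiv_prod (G := fun k s => G (s + ((k + 1 : ℕ) : ℂ)) ^ (c ^ k))
        (fun k => NoDiv.pow (hG.add hS (k + 1)) (c ^ k)) m
    refine ⟨m, ?_, h2'.mul (h5.mero s₀ trivial), ?_⟩
    · apply Filter.EventuallyEq.filter_mono _ nhdsWithin_le_nhds
      have h3 : {z : ℂ | s₀.re - 1 < z.re} ∈ nhds s₀ :=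
        (isOpen_lt continuous_const continuous_re).mem_nhds (by
          change s₀.re - 1 < s₀.re
          linarith)
      filter_upwards [h3] with s hs
      have hs' : s₀.re - 1 < s.re := hs
      have h4 : n s ≤ m := by
        have h5 : ⌈τ - s.re⌉₊ ≤ ⌈τ - s₀.re⌉₊ + 1 := by
          rw [Nat.ceil_le]
          push_cast
          have h6 := Nat.le_ceil (τ - s₀.re)
          linarith
        change ⌈τ - s.re⌉₊ + 1 ≤ ⌈τ - s₀.re⌉₊ + 1 + 1
        omega
      exact (hF2 (n s) m s h4 (by linarith [hn s])).symm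
    · intro hs₀
      have h6 : meromorphicOrderAt (F m) s₀ =
          meromorphicOrderAt (fun s => E (s + m) ^ (c ^ m)) s₀ +
          meromorphicOrderAt (fun s => ∏ k ∈ Finset.range m,
            G (s + ((k + 1 : ℕ) : ℂ)) ^ (c ^ k)) s₀ :=
        meromorphicOrderAt_mul h2' (h5.mero s₀ trivial)
      have h7 : meromorphicOrderAt (fun s => E (s + m)) s₀ = 0 := by
        rw [meromorphicOrderAt_fun_comp_add_const_eq_meromorphicOrderAt]
        exact (exp_ser_ok hr hre).2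
      have h8 : meromorphicOrderAt (fun s => E (s + m) ^ (c ^ m)) s₀ = 0 := by
        have h9 : (fun s => E (s + m) ^ (c ^ m)) = (fun s => E (s + m)) ^ (c ^ m) := rfl
        rw [h9, meromorphicOrderAt_pow h2, h7, mul_zero]
      rw [h6, h5.order s₀ hs₀, h8, add_zero]
  refine ⟨fun s => F (n s) s, ⟨fun s₀ _ => ?_, fun s₀ hs₀ => ?_⟩, τ, fun s hs => ?_⟩
  · obtain ⟨m, h1, h2, _⟩ := key s₀
    exact h2.congr h1.symm
  · obtain ⟨m, h1, _, h3⟩ := key s₀
    rw [meromorphicOrderAt_congr h1]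
    exact h3 hs₀
  · have h1 := hF2 0 (n s) s (Nat.zero_le _) (by
      push_cast
      linarith)
    change F (n s) s = _
    rw [h1]
    change E (s + ((0 : ℕ) : ℂ)) ^ (c ^ 0) * ∏ k ∈ Finset.range 0, _ = _
    rw [Finset.prod_range_zero, mul_one, pow_zero, pow_one, Nat.cast_zero, add_zero]

/-- Division by powers of `q - c`. -/
theorem MerC.unfold_pow (hS : Tr S) {N : Nat.Primes × ℕ → ℂ} (hN : Bd N) (c k : ℕ)
    (h : MerC S fun x => (qc x - c) ^ k * N x) : MerC S N := by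
  induction k with
  | zero => exact h.congr fun x => by rw [pow_zero, one_mul]
  | succ k ih =>
    refine ih (MerC.unfold hS ?_ c (h.congr fun x => ?_))
    · have h1 : Bd fun x => (qc x - c) := by
        have := bd_qc.add (bd_nat c).neg
        refine (congrArg Bd ?_).mp this
        funext x
        rw [Pi.add_apply, Pi.neg_apply]
        ring
      exact (bd_pow h1 k).mul hN
    · rw [pow_succ]
      ring

/-- The connection with points of rings. -/
lemma merC_hom {A : Type} [CommRing A] [Algebra ℤ A] [Algebra.FiniteType ℤ A] :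
    Mer S (idN (maxS A)) ↔ MerC S fun x => (homCount A x : ℂ) := by
  rw [mer_points]
  rfl

end Pool.Agent.H440.WG
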