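import Mathlib

/-!
# Solutions of a trilinear equation with prescribed support
-/

set_option autoImplicit false

namespace Pool.Agent.H440.WG

section support

variable {V K F : Type} [Fintype V] [DecidableEq V] [Field F] [Finite F] (p q r : K → V)

/-- The value of the form. -/
def tv {R : Type} [Semiring R] (L : List K) (v : V → R) : R :=
  (L.map fun h => v (p h) * v (q h) * v (r h)).sum

/-- The monomials in the variables of `I`. -/
def restr (I : Finset V) (L : List K) : List K := L.filter fun h => p h ∈ I ∧ q h ∈ I ∧ r h ∈ I

omit [Fintype V] [Finite F] in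
lemma tv_restr (I : Finset V) (L : List K) (v : V → F) (hv : ∀ i ∉ I, v i = 0) :
    tv p q r L v = tv p q r (restr p q r I L) v := by
  induction L with
  | nil => rfl
  | cons h L ih =>
    unfold tv restr at ih ⊢
    rw [List.map_cons, List.sum_cons, ih, List.filter_cons]
    by_cases h1 : p h ∈ I ∧ q h ∈ I ∧ r h ∈ I
    · rw [if_pos (decide_eq_true h1), List.map_cons, List.sum_cons]
    · rw [if_neg (by simpa using h1)]
      have h2 : v (p h) * v (q h) * v (r h) = 0 := by
        by_cases hp : p h ∈ I
        · by_cases hq : q h ∈ I
          · rw [hv _ fun hr => h1 ⟨hp, hq, hr⟩, mul_zero]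
          · rw [hv _ hq, mul_zero, zero_mul]
        · rw [hv _ hp, zero_mul, zero_mul]
      rw [h2, zero_add]

omit [Fintype V] [Finite F] in
lemma tv_congr (I : Finset V) (L : List K) (v w : V → F) (hv : ∀ i ∈ I, v i = w i) :
    tv p q r (restr p q r I L) v = tv p q r (restr p q r I L) w := by
  unfold tv
  congr 1
  apply List.map_congr_left
  intro h hh
  unfold restr at hh
  rw [List.mem_filter, decide_eq_true_iff] at hh
  rw [hv _ hh.2.1, hv _ hh.2.2.1, hv _ hh.2.2.2]

/-- The solutions that vanish outside of `I`. -/
abbrev SolA (F : Type) [Field F] (L : List K) (I : Finset V) : Type :=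
  {v : V → F // (∀ i ∉ I, v i = 0) ∧ tv p q r L v = 1}

/-- The solutions with support `I`. -/
abbrev SolB (F : Type) [Field F] (L : List K) (I : Finset V) : Type :=
  {v : V → F // (∀ i, v i ≠ 0 ↔ i ∈ I) ∧ tv p q r L v = 1}

omit [Fintype V] [Finite F] in
/-- The solutions of the restricted equation. -/
lemma card_C (L : List K) (I : Finset V) :
    Nat.card {v : V → F // tv p q r (restr p q r I L) v = 1} =
      Nat.card (SolA p q r F L I) * Nat.card ({i // i ∉ I} → F) := by
  rw [← Nat.card_prod]
  apply Nat.card_congr
  exact
    { toFun := fun v => (⟨fun i => if i ∈ I then v.1 i else 0, fun i hi => if_neg hi, by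
        rw [tv_restr p q r I L _ fun i hi => if_neg hi]
        exact (tv_congr p q r I L _ _ fun i hi => if_pos hi).trans v.2⟩, fun i => v.1 i.1)
      invFun := fun w => ⟨fun i => if h : i ∈ I then w.1.1 i else w.2 ⟨i, h⟩, by
        exact (tv_congr p q r I L _ w.1.1 fun i hi => dif_pos hi).trans
          ((tv_restr p q r I L _ w.1.2.1).symm.trans w.1.2.2)⟩
      left_inv := fun v => by
        apply Subtype.ext
        funext i
        by_cases h : i ∈ I
        · simp only [h, dif_pos, if_pos]
        · simp only [h, dif_neg, not_false_eq_true]
      right_inv := fun w => by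
        refine Prod.ext_iff.2 ⟨?_, ?_⟩
        · apply Subtype.ext
          funext i
          by_cases h : i ∈ I
          · simp only [h, dif_pos, if_pos]
          · simp only [h, if_false]
            exact (w.1.2.1 i h).symm
        · funext i
          have h := i.2
          simp only [h, dif_neg, not_false_eq_true] }

omit [Fintype V] [Finite F] in
/-- The solutions of the restricted equation with all coordinates different from zero. -/
lemma card_W (L : List K) (I : Finset V) :
    Nat.card {u : V → Fˣ // tv p q r (restr p q r I L) (fun i => (u i : F)) = 1} =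
      Nat.card (SolB p q r F L I) * Nat.card ({i // i ∉ I} → Fˣ) := by
  rw [← Nat.card_prod]
  apply Nat.card_congr
  exact
    { toFun := fun v => (⟨fun i => if i ∈ I then (v.1 i : F) else 0, fun i => by
        by_cases h : i ∈ I
        · simp [h]
        · simp [h], by
        rw [tv_restr p q r I L _ fun i hi => if_neg hi]
        exact (tv_congr p q r I L _ _ fun i hi => if_pos hi).trans v.2⟩, fun i => v.1 i.1)
      invFun := fun w => ⟨fun i => if h : i ∈ I then Units.mk0 (w.1.1 i) ((w.1.2.1 i).2 h)
          else w.2 ⟨i, h⟩, by
        refine (tv_congr p q r I L _ w.1.1 fun i hi => ?_).trans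
          ((tv_restr p q r I L _ fun i hi => ?_).symm.trans w.1.2.2)
        · simp only [hi, dif_pos, Units.val_mk0]
        · by_contra h
          exact hi ((w.1.2.1 i).1 h)⟩
      left_inv := fun v => by
        apply Subtype.ext
        funext i
        by_cases h : i ∈ I
        · apply Units.ext
          simp only [h, dif_pos, if_pos, Units.val_mk0]
        · simp only [h, dif_neg, not_false_eq_true]
      right_inv := fun w => by
        refine Prod.ext_iff.2 ⟨?_, ?_⟩
        · apply Subtype.ext
          funext i
          by_cases h : i ∈ I
          · simp only [h, dif_pos, if_pos, Units.val_mk0]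
          · simp only [h, if_false]
            by_contra h2
            exact h ((w.1.2.1 i).1 fun h3 => h2 h3.symm)
        · funext i
          have h := i.2
          simp only [h, dif_neg, not_false_eq_true] }

/-- The solutions according to their support. -/
lemma card_A (L : List K) (I : Finset V) :
    Nat.card (SolA p q r F L I) = ∑ J ∈ I.powerset, Nat.card (SolB p q r F L J) := by
  classical
  have h1 : Nat.card (SolA p q r F L I) =
      Nat.card (Σ J : {J // J ∈ I.powerset}, SolB p q r F L J.1) := by
    apply Nat.card_congr
    exact
      { toFun := fun v => ⟨⟨Finset.univ.filter fun i => v.1 i ≠ 0, by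
          rw [Finset.mem_powerset]
          intro i hi
          rw [Finset.mem_filter] at hi
          by_contra h
          exact hi.2 (v.2.1 i h)⟩, ⟨v.1, fun i => by
            rw [Finset.mem_filter]
            exact ⟨fun h => ⟨Finset.mem_univ i, h⟩, fun h => h.2⟩, v.2.2⟩⟩
        invFun := fun w => ⟨w.2.1, fun i hi => by
          by_contra h
          exact hi (Finset.mem_powerset.1 w.1.2 ((w.2.2.1 i).1 h)), w.2.2.2⟩
        left_inv := fun v => rfl
        right_inv := fun w => by
          obtain ⟨⟨J, hJ⟩, ⟨v, h1, h2⟩⟩ := w
          have h3 : J = Finset.univ.filter fun i => v i ≠ 0 := by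
            ext i
            rw [Finset.mem_filter]
            exact ⟨fun h => ⟨Finset.mem_univ i, (h1 i).2 h⟩, fun h => (h1 i).1 h.2⟩
          subst h3
          rfl }
  rw [h1, Nat.card_sigma, ← Finset.sum_coe_sort I.powerset]

end support

end Pool.Agent.H440.WG
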