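import Pool.Agent.H440.WG.Mid
import Pool.Graph.R_pool_sql_team_seeded_3997aac3.Q54.ZE.Fib2

/-!
# The scheme of homomorphisms of a finitely generated group to the affine group
-/

set_option autoImplicit false

namespace Pool.Agent.H440.WG

open Q54.ZE MvPolynomial Pool.Agent.Y116.UV CategoryTheory AlgebraicGeometry TensorProduct

section ring

/-- The ring `ℤ[a_i, a_i⁻¹, b_i]`. -/
abbrev GenRing (k : ℕ) : Type :=
  MvPolynomial (Fin k × Fin 3) ℤ ⧸
    Ideal.span (Set.range fun i : Fin k => (X (i, 0) * X (i, 1) - 1 : MvPolynomial (Fin k × Fin 3) ℤ))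

/-- The coordinates. -/
noncomputable def coord (k : ℕ) (i : Fin k) (j : Fin 3) : GenRing k := Ideal.Quotient.mk _ (X (i, j))

lemma coord_mul (k : ℕ) (i : Fin k) : coord k i 0 * coord k i 1 = 1 := by
  unfold coord
  rw [← map_mul, ← sub_eq_zero, ← map_one (Ideal.Quotient.mk _), ← map_sub,
    Ideal.Quotient.eq_zero_iff_mem]
  exact Ideal.subset_span ⟨i, rfl⟩

/-- The generic elements of the affine group. -/
noncomputable def gel (k : ℕ) (i : Fin k) : Aff (GenRing k) :=
  ⟨⟨coord k i 0, coord k i 1, coord_mul k i, by rw [mul_comm, coord_mul]⟩, coord k i 2⟩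

/-- The ideal of the relations. -/
noncomputable def relIdeal {k : ℕ} (R : Set (FreeGroup (Fin k))) : Ideal (GenRing k) :=
  Ideal.span ((fun r => ((FreeGroup.lift (gel k) r).lin : GenRing k) - 1) '' R ∪
    (fun r => (FreeGroup.lift (gel k) r).tr) '' R)

/-- The ring of functions on the scheme of the homomorphisms. -/
abbrev HomRing {k : ℕ} (R : Set (FreeGroup (Fin k))) : Type := GenRing k ⧸ relIdeal R

variable {F : Type} [Field F]

lemma map_lift {k : ℕ} {B C : Type} [CommRing B] [CommRing C] (f : B →+* C) (g : Fin k → Aff B)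
    (r : FreeGroup (Fin k)) :
    Aff.map f (FreeGroup.lift g r) = FreeGroup.lift (fun i => Aff.map f (g i)) r := by
  have h1 : (Aff.map f).comp (FreeGroup.lift g) = FreeGroup.lift (fun i => Aff.map f (g i)) := by
    apply FreeGroup.ext_hom
    intro i
    rw [MonoidHom.comp_apply, FreeGroup.lift_apply_of, FreeGroup.lift_apply_of]
  exact congrArg (fun φ : FreeGroup (Fin k) →* Aff C => φ r) h1

/-- The ring homomorphisms of the generic ring. -/
noncomputable def genEquiv (k : ℕ) : (GenRing k →+* F) ≃ (Fin k → Aff F) where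
  toFun f i := Aff.map f (gel k i)
  invFun g := (quotHom _).symm ⟨fun x => if x.2 = 0 then ((g x.1).lin : F) else
    if x.2 = 1 then (((g x.1).lin⁻¹ : Fˣ) : F) else (g x.1).tr, by
      rintro _ ⟨i, rfl⟩
      simp⟩
  left_inv f := by
    rw [Equiv.symm_apply_eq]
    apply Subtype.ext
    funext x
    obtain ⟨i, j⟩ := x
    change _ = f (Ideal.Quotient.mk _ (X (i, j)))
    fin_cases j
    · rfl
    · rfl
    · rfl
  right_inv g := by
    funext i
    let w : {v : Fin k × Fin 3 → F // ∀ g ∈ (Set.range fun i : Fin k =>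
        (X (i, 0) * X (i, 1) - 1 : MvPolynomial (Fin k × Fin 3) ℤ)), MvPolynomial.aeval v g = 0} :=
      ⟨fun x => if x.2 = 0 then ((g x.1).lin : F) else
        if x.2 = 1 then (((g x.1).lin⁻¹ : Fˣ) : F) else (g x.1).tr, by
          rintro _ ⟨i, rfl⟩
          simp⟩
    have h1 : ∀ x, (quotHom _).symm w (Ideal.Quotient.mk _ (X x)) = w.1 x := by
      intro x
      exact MvPolynomial.aeval_X _ _
    apply Aff.ext
    · apply Units.ext
      exact h1 (i, 0)
    · exact h1 (i, 2)

/-- The ring homomorphisms are the solutions of the relations. -/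
noncomputable def homRingEquiv {k : ℕ} (R : Set (FreeGroup (Fin k))) : (HomRing R →+* F) ≃
    {g : Fin k → Aff F // ∀ r ∈ R, FreeGroup.lift g r = 1} where
  toFun f := ⟨genEquiv k (f.comp (Ideal.Quotient.mk _)), fun r hr => by
    have h1 : FreeGroup.lift (genEquiv k (f.comp (Ideal.Quotient.mk (relIdeal R)))) r =
        Aff.map (f.comp (Ideal.Quotient.mk (relIdeal R))) (FreeGroup.lift (gel k) r) :=
      (map_lift _ _ _).symm
    rw [h1]
    apply Aff.ext
    · apply Units.ext
      rw [Aff.map_lin, Aff.one_lin, Units.val_one, RingHom.comp_apply]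
      have h2 : Ideal.Quotient.mk (relIdeal R)
          (((FreeGroup.lift (gel k) r).lin : GenRing k) - 1) = 0 :=
        Ideal.Quotient.eq_zero_iff_mem.2 (Ideal.subset_span (Or.inl ⟨r, hr, rfl⟩))
      rw [map_sub, map_one, sub_eq_zero] at h2
      rw [h2, map_one]
    · rw [Aff.map_tr, Aff.one_tr, RingHom.comp_apply]
      have h2 : Ideal.Quotient.mk (relIdeal R) ((FreeGroup.lift (gel k) r).tr) = 0 :=
        Ideal.Quotient.eq_zero_iff_mem.2 (Ideal.subset_span (Or.inr ⟨r, hr, rfl⟩))
      rw [h2, map_zero]⟩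
  invFun g := Ideal.Quotient.lift (relIdeal R) ((genEquiv k).symm g.1) (fun a ha => by
    have h : relIdeal R ≤ RingHom.ker ((genEquiv k).symm g.1) := by
      refine Ideal.span_le.2 ?_
      have h0 : ∀ r ∈ R, Aff.map ((genEquiv k).symm g.1) (FreeGroup.lift (gel k) r) = 1 := by
        intro r hr
        rw [map_lift]
        have h1 : (fun i => Aff.map ((genEquiv k).symm g.1) (gel k i)) = g.1 :=
          (genEquiv k).apply_symm_apply g.1
        rw [h1]
        exact g.2 r hr
      rintro y (⟨r, hr, rfl⟩ | ⟨r, hr, rfl⟩)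
      · change ((genEquiv k).symm g.1) (((FreeGroup.lift (gel k) r).lin : GenRing k) - 1) = 0
        rw [map_sub, map_one, ← Aff.map_lin, h0 r hr, Aff.one_lin, Units.val_one, sub_self]
      · change ((genEquiv k).symm g.1) ((FreeGroup.lift (gel k) r).tr) = 0
        rw [← Aff.map_tr, h0 r hr, Aff.one_tr]
    exact h ha)
  left_inv f := by
    apply Ideal.Quotient.ringHom_ext
    refine RingHom.ext fun x => ?_
    change (genEquiv k).symm (genEquiv k (f.comp (Ideal.Quotient.mk (relIdeal R)))) x = _
    rw [Equiv.symm_apply_apply]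
  right_inv g := by
    apply Subtype.ext
    refine (congrArg (genEquiv k) (RingHom.ext fun x => ?_)).trans
      ((genEquiv k).apply_symm_apply g.1)
    rfl

end ring

section groups

/-- The homomorphisms of a quotient of a free group. -/
noncomputable def quotientHomEquiv {k : ℕ} {Γ G : Type} [Group Γ] [Group G]
    (π : FreeGroup (Fin k) →* Γ) (hπ : Function.Surjective π) :
    (Γ →* G) ≃ {g : Fin k → G // ∀ r ∈ {r | π r = 1}, FreeGroup.lift g r = 1} :=
  (MonoidHom.liftOfSurjective π hπ).symm.trans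
    { toFun := fun ψ => ⟨FreeGroup.lift.symm ψ.1, fun r hr => by
        rw [Equiv.apply_symm_apply]
        exact ψ.2 hr⟩
      invFun := fun g => ⟨FreeGroup.lift g.1, fun r hr => g.2 r hr⟩
      left_inv := fun ψ => Subtype.ext (Equiv.apply_symm_apply _ _)
      right_inv := fun g => Subtype.ext (Equiv.symm_apply_apply _ _) }

/-- A finitely generated group is a quotient of a free group. -/
lemma exists_free (Γ : Type) [Group Γ] [Group.FG Γ] :
    ∃ (k : ℕ) (π : FreeGroup (Fin k) →* Γ), Function.Surjective π := by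
  obtain ⟨_, S, _, hS2⟩ := (Group.fg_iff' (G := Γ)).1 inferInstance
  let e := S.equivFin
  refine ⟨S.card, FreeGroup.lift fun i => (e.symm i : Γ), ?_⟩
  rw [← MonoidHom.range_eq_top, FreeGroup.range_lift_eq_closure, ← top_le_iff, ← hS2]
  apply Subgroup.closure_mono
  intro x hx
  exact ⟨e ⟨x, hx⟩, congrArg Subtype.val (e.symm_apply_apply _)⟩

/-- The numbers of the homomorphisms are numbers of points of a ring. -/
theorem exists_ring (Γ : Type) [Group Γ] [Group.FG Γ] :
    ∃ (k : ℕ) (R : Set (FreeGroup (Fin k))), ∀ x, homCount (HomRing R) x = affCount Γ x := by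
  obtain ⟨k, π, hπ⟩ := exists_free Γ
  refine ⟨k, {r | π r = 1}, fun x => ?_⟩
  have : Fact x.1.1.Prime := ⟨x.1.2⟩
  let F := GaloisField x.1.1 (x.2 + 1)
  exact Nat.card_congr ((homRingEquiv (F := F) _).trans
    ((quotientHomEquiv (G := Aff F) π hπ).symm.trans (homCongr (affEquiv F))))

end groups

end Pool.Agent.H440.WG
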