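import Pool.Agent.H440.WG.Cal
import Pool.Agent.H440.WG.Aff
import Pool.Agent.H440.WG.Cnt

/-!
# Homomorphisms of one-relator groups to the affine groups and trilinear equations
-/

set_option autoImplicit false

namespace Pool.Agent.H440.WG

open Q54.ZE

/-- The group of the affine permutations `x ↦ a x + b` of the field `F`. -/
def AffPerm (F : Type) [Field F] : Type := F ≃ᵃ[F] F

instance (F : Type) [Field F] : Group (AffPerm F) := inferInstanceAs (Group (F ≃ᵃ[F] F))

/-- The number of the homomorphisms of the group `Γ` to the group of the affine permutations of the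
field `F`. -/
noncomputable def homNumber (Γ : Type) [Group Γ] (F : Type) [Field F] : ℕ :=
  Nat.card (Γ →* AffPerm F)

/-- The number of the homomorphisms of the group `Γ` to the group of the affine permutations
`x ↦ a x + b` of the field with `p ^ (n + 1)` elements. -/
noncomputable def affCount (Γ : Type) [Group Γ] (x : Nat.Primes × ℕ) : ℕ :=
  haveI : Fact x.1.1.Prime := ⟨x.1.2⟩
  homNumber Γ (GaloisField x.1.1 (x.2 + 1))

/-- The exponential of the Dirichlet series of the numbers of homomorphisms. -/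
noncomputable def affZeta (Γ : Type) [Group Γ] (s : ℂ) : ℂ :=
  Complex.exp (∑' x : Nat.Primes × ℕ, (affCount Γ x : ℂ) / ((x.2 : ℂ) + 1) *
    ((x.1.1 : ℂ) ^ (-(((x.2 : ℂ) + 1) * s))))

variable {a b c : ℕ}

/-- The solutions without zero coordinates. -/
noncomputable def cntW (L : List (Fin a × Fin b × Fin c)) (x : Nat.Primes × ℕ) : ℕ :=
  haveI : Fact x.1.1.Prime := ⟨x.1.2⟩
  Nat.card {u : Fin a ⊕ Fin b ⊕ Fin c → (GaloisField x.1.1 (x.2 + 1))ˣ //
    tval L (fun i => (u i : GaloisField x.1.1 (x.2 + 1))) = 1}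

/-- The solutions. -/
noncomputable def cntC (L : List (Fin a × Fin b × Fin c)) (x : Nat.Primes × ℕ) : ℕ :=
  haveI : Fact x.1.1.Prime := ⟨x.1.2⟩
  Nat.card {v : Fin a ⊕ Fin b ⊕ Fin c → GaloisField x.1.1 (x.2 + 1) // tval L v = 1}

/-- The monomials in given variables. -/
def sub (I : Finset (Fin a ⊕ Fin b ⊕ Fin c)) (L : List (Fin a × Fin b × Fin c)) :
    List (Fin a × Fin b × Fin c) :=
  restr (fun h => Sum.inl h.1) (fun h => Sum.inr (Sum.inl h.2.1))
    (fun h => Sum.inr (Sum.inr h.2.2)) I L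

/-- The solutions that vanish outside of `I`. -/
noncomputable def cntA (L : List (Fin a × Fin b × Fin c)) (I : Finset (Fin a ⊕ Fin b ⊕ Fin c))
    (x : Nat.Primes × ℕ) : ℕ :=
  haveI : Fact x.1.1.Prime := ⟨x.1.2⟩
  Nat.card (SolA (fun h : Fin a × Fin b × Fin c => Sum.inl h.1)
    (fun h => Sum.inr (Sum.inl h.2.1)) (fun h => Sum.inr (Sum.inr h.2.2))
    (GaloisField x.1.1 (x.2 + 1)) L I)

/-- The solutions with support `I`. -/
noncomputable def cntB (L : List (Fin a × Fin b × Fin c)) (I : Finset (Fin a ⊕ Fin b ⊕ Fin c))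
    (x : Nat.Primes × ℕ) : ℕ :=
  haveI : Fact x.1.1.Prime := ⟨x.1.2⟩
  Nat.card (SolB (fun h : Fin a × Fin b × Fin c => Sum.inl h.1)
    (fun h => Sum.inr (Sum.inl h.2.1)) (fun h => Sum.inr (Sum.inr h.2.2))
    (GaloisField x.1.1 (x.2 + 1)) L I)

lemma card_gf (x : Nat.Primes × ℕ) [Fact x.1.1.Prime] :
    Nat.card (GaloisField x.1.1 (x.2 + 1)) = ppow x :=
  GaloisField.card _ _ (Nat.succ_ne_zero _)

lemma sub_one_cast (x : Nat.Primes × ℕ) : ((ppow x - 1 : ℕ) : ℂ) = qc x - (1 : ℕ) := by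
  have h : 1 ≤ ppow x := ppow_pos x
  rw [Nat.cast_sub h]
  rfl

lemma affCount_relator (L : List (Fin a × Fin b × Fin c)) (x : Nat.Primes × ℕ) :
    (affCount (PresentedGroup {relator L}) x : ℂ) = qc x ^ (a + b + c + 2) * ((qc x - (1 : ℕ)) *
      ((qc x - (1 : ℕ)) ^ (a + b + c) * 1 + (qc x - (2 : ℕ)) * cntW L x)) := by
  have : Fact x.1.1.Prime := ⟨x.1.2⟩
  have h1 : (homNumber (PresentedGroup {relator L}) (GaloisField x.1.1 (x.2 + 1)) : ℤ) = _ :=
    card_hom_relator (F := GaloisField x.1.1 (x.2 + 1)) L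
  rw [card_gf] at h1
  have h2 := congrArg (Int.cast : ℤ → ℂ) h1
  push_cast at h2
  unfold affCount cntW qc
  rw [h2]
  push_cast
  ring

lemma cntC_sub (L : List (Fin a × Fin b × Fin c)) (I : Finset (Fin a ⊕ Fin b ⊕ Fin c))
    (x : Nat.Primes × ℕ) : (cntC (sub I L) x : ℂ) =
      qc x ^ (Fintype.card {i // i ∉ I}) * cntA L I x := by
  have : Fact x.1.1.Prime := ⟨x.1.2⟩
  have h1 := card_C (F := GaloisField x.1.1 (x.2 + 1))
    (fun h : Fin a × Fin b × Fin c => (Sum.inl h.1 : Fin a ⊕ Fin b ⊕ Fin c))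
    (fun h => Sum.inr (Sum.inl h.2.1)) (fun h => Sum.inr (Sum.inr h.2.2)) L I
  rw [Nat.card_fun, card_gf, Nat.card_eq_fintype_card (α := {i // i ∉ I})] at h1
  have h2 : cntC (sub I L) x = cntA L I x * ppow x ^ (Fintype.card {i // i ∉ I}) := h1
  rw [h2, qc]
  push_cast
  ring

lemma cntW_sub (L : List (Fin a × Fin b × Fin c)) (I : Finset (Fin a ⊕ Fin b ⊕ Fin c))
    (x : Nat.Primes × ℕ) : (cntW (sub I L) x : ℂ) =
      (qc x - (1 : ℕ)) ^ (Fintype.card {i // i ∉ I}) * cntB L I x := by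
  have : Fact x.1.1.Prime := ⟨x.1.2⟩
  have h1 := card_W (F := GaloisField x.1.1 (x.2 + 1))
    (fun h : Fin a × Fin b × Fin c => (Sum.inl h.1 : Fin a ⊕ Fin b ⊕ Fin c))
    (fun h => Sum.inr (Sum.inl h.2.1)) (fun h => Sum.inr (Sum.inr h.2.2)) L I
  rw [Nat.card_fun, Nat.card_units, card_gf, Nat.card_eq_fintype_card (α := {i // i ∉ I})] at h1
  have h2 : cntW (sub I L) x = cntB L I x * (ppow x - 1) ^ (Fintype.card {i // i ∉ I}) := h1
  rw [h2, Nat.cast_mul, Nat.cast_pow, sub_one_cast]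
  ring

lemma cntA_eq (L : List (Fin a × Fin b × Fin c)) (I : Finset (Fin a ⊕ Fin b ⊕ Fin c))
    (x : Nat.Primes × ℕ) : cntA L I x = ∑ J ∈ I.powerset, cntB L J x := by
  have : Fact x.1.1.Prime := ⟨x.1.2⟩
  exact card_A (F := GaloisField x.1.1 (x.2 + 1)) _ _ _ L I

lemma sub_univ (L : List (Fin a × Fin b × Fin c)) : sub Finset.univ L = L := by
  unfold sub restr
  rw [List.filter_eq_self]
  intro h _
  simp

lemma card_compl_univ : Fintype.card {i : Fin a ⊕ Fin b ⊕ Fin c // i ∉ Finset.univ} = 0 := by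
  rw [Fintype.card_eq_zero_iff]
  exact ⟨fun i => i.2 (Finset.mem_univ _)⟩

lemma cntB_univ (L : List (Fin a × Fin b × Fin c)) (x : Nat.Primes × ℕ) :
    (cntW L x : ℂ) = cntB L Finset.univ x := by
  have h1 := cntW_sub L Finset.univ x
  rwa [sub_univ, card_compl_univ, pow_zero, one_mul] at h1

lemma cntA_univ (L : List (Fin a × Fin b × Fin c)) (x : Nat.Primes × ℕ) :
    (cntC L x : ℂ) = cntA L Finset.univ x := by
  have h1 := cntC_sub L Finset.univ x
  rwa [sub_univ, card_compl_univ, pow_zero, one_mul] at h1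

lemma bd_B (L : List (Fin a × Fin b × Fin c)) (I : Finset (Fin a ⊕ Fin b ⊕ Fin c)) :
    Bd fun x => (cntB L I x : ℂ) := by
  refine bd_of_le (r := Fintype.card (Fin a ⊕ Fin b ⊕ Fin c)) fun x => ?_
  have : Fact x.1.1.Prime := ⟨x.1.2⟩
  have h1 := Nat.card_le_card_of_injective (α := SolB
    (fun h : Fin a × Fin b × Fin c => (Sum.inl h.1 : Fin a ⊕ Fin b ⊕ Fin c))
    (fun h => Sum.inr (Sum.inl h.2.1)) (fun h => Sum.inr (Sum.inr h.2.2))
    (GaloisField x.1.1 (x.2 + 1)) L I) _ Subtype.val_injective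
  rw [Nat.card_fun, card_gf,
    Nat.card_eq_fintype_card (α := Fin a ⊕ Fin b ⊕ Fin c)] at h1
  exact h1

lemma bd_A (L : List (Fin a × Fin b × Fin c)) (I : Finset (Fin a ⊕ Fin b ⊕ Fin c)) :
    Bd fun x => (cntA L I x : ℂ) := by
  refine bd_of_le (r := Fintype.card (Fin a ⊕ Fin b ⊕ Fin c)) fun x => ?_
  have : Fact x.1.1.Prime := ⟨x.1.2⟩
  have h1 := Nat.card_le_card_of_injective (α := SolA
    (fun h : Fin a × Fin b × Fin c => (Sum.inl h.1 : Fin a ⊕ Fin b ⊕ Fin c))
    (fun h => Sum.inr (Sum.inl h.2.1)) (fun h => Sum.inr (Sum.inr h.2.2))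
    (GaloisField x.1.1 (x.2 + 1)) L I) _ Subtype.val_injective
  rw [Nat.card_fun, card_gf,
    Nat.card_eq_fintype_card (α := Fin a ⊕ Fin b ⊕ Fin c)] at h1
  exact h1

lemma bd_W (L : List (Fin a × Fin b × Fin c)) : Bd fun x => (cntW L x : ℂ) := by
  simp only [cntB_univ]
  exact bd_B L _

variable {S : Set ℂ}

lemma bd_qsub (k : ℕ) : Bd fun x => (qc x - (k : ℂ)) := by
  have := bd_qc.add (bd_nat k).neg
  refine (congrArg Bd ?_).mp this
  funext x
  rw [Pi.add_apply, Pi.neg_apply]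
  ring

/-- Multiplication by `q - k`. -/
lemma MerC.fold (hS : Tr S) {N : Nat.Primes × ℕ → ℂ} (hN : Bd N) (k : ℕ) (h : MerC S N) :
    MerC S fun x => (qc x - (k : ℂ)) * N x := by
  have h1 := h.shift hS 1
  have h2 : Bd fun x => qc x ^ 1 * N x := (bd_pow bd_qc 1).mul hN
  exact (h1.sub h2 ((bd_nat k).mul hN) (h.nat_mul hN k)).congr fun x => by
    rw [Pi.sub_apply, pow_one]
    ring

lemma MerC.fold_pow (hS : Tr S) {N : Nat.Primes × ℕ → ℂ} (hN : Bd N) (k n : ℕ) (h : MerC S N) :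
    MerC S fun x => (qc x - (k : ℂ)) ^ n * N x := by
  induction n with
  | zero => exact h.congr fun x => by rw [pow_zero, one_mul]
  | succ n ih =>
    exact (ih.fold hS ((bd_pow (bd_qsub k) n).mul hN) k).congr fun x => by
      rw [pow_succ]
      ring

/-- The trivial word. -/
lemma mer_one (hS : Tr S) (h : MerC S fun x => (affCount (PresentedGroup
    {relator ([] : List (Fin 0 × Fin 0 × Fin 0))}) x : ℂ)) : MerC S fun _ => 1 := by
  have hW : ∀ x, cntW ([] : List (Fin 0 × Fin 0 × Fin 0)) x = 0 := by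
    intro x
    have : Fact x.1.1.Prime := ⟨x.1.2⟩
    have h1 : IsEmpty {u : Fin 0 ⊕ Fin 0 ⊕ Fin 0 → (GaloisField x.1.1 (x.2 + 1))ˣ //
        tval ([] : List (Fin 0 × Fin 0 × Fin 0))
          (fun i => (u i : GaloisField x.1.1 (x.2 + 1))) = 1} := by
      constructor
      rintro ⟨u, hu⟩
      exact zero_ne_one hu
    exact Nat.card_of_isEmpty
  have h1 : Bd fun _ => (1 : ℂ) := by simpa using bd_nat 1
  refine MerC.unfold hS h1 1 (MerC.unshift hS 2 (h.congr fun x => ?_))
  rw [affCount_relator, hW]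
  push_cast
  ring

/-- The one-relator group and the trilinear equation. -/
theorem mer_relator (hS : Tr S) (h1 : MerC S fun _ => 1) (L : List (Fin a × Fin b × Fin c)) :
    (MerC S fun x => (affCount (PresentedGroup {relator L}) x : ℂ)) ↔
      MerC S fun x => (cntW L x : ℂ) := by
  have hb1 : Bd fun _ => (1 : ℂ) := by simpa using bd_nat 1
  have hp : MerC S fun x => (qc x - (1 : ℕ)) ^ (a + b + c) * 1 := h1.fold_pow hS hb1 1 _
  have hbp : Bd fun x => (qc x - (1 : ℕ)) ^ (a + b + c) * 1 :=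
    (bd_pow (bd_qsub 1) _).mul hb1
  have hbW := bd_W L
  have hb2 : Bd fun x => (qc x - (2 : ℕ)) * (cntW L x : ℂ) := (bd_qsub 2).mul hbW
  constructor
  · intro h
    have h2 : MerC S fun x => (qc x - (1 : ℕ)) *
        ((qc x - (1 : ℕ)) ^ (a + b + c) * 1 + (qc x - (2 : ℕ)) * (cntW L x : ℂ)) :=
      MerC.unshift hS (a + b + c + 2) (h.congr fun x => (affCount_relator L x).symm)
    have h3 := MerC.unfold hS (hbp.add hb2) 1 h2
    have h4 := h3.sub (hbp.add hb2) hbp hp
    exact MerC.unfold hS hbW 2 (h4.congr fun x => by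
      rw [Pi.sub_apply]
      simp only [Pi.add_apply]
      ring)
  · intro h
    have h2 := hp.add hbp hb2 (h.fold hS hbW 2)
    have h3 := (h2.fold hS (hbp.add hb2) 1).shift hS (a + b + c + 2)
    exact h3.congr fun x => affCount_relator L x

/-- From the words to the equation. -/
theorem mer_C (hS : Tr S) (L : List (Fin a × Fin b × Fin c))
    (h : ∀ I, MerC S fun x => (cntW (sub I L) x : ℂ)) : MerC S fun x => (cntC L x : ℂ) := by
  have hB : ∀ I, MerC S fun x => (cntB L I x : ℂ) := fun I =>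
    MerC.unfold_pow hS (bd_B L I) 1 _ ((h I).congr fun x => (cntW_sub L I x).symm)
  have h1 := (merC_sum (Finset.univ : Finset (Fin a ⊕ Fin b ⊕ Fin c)).powerset
    (fun I x => (cntB L I x : ℂ)) (bd_B L) fun I _ => hB I).1
  exact h1.congr fun x => by
    rw [cntA_univ, cntA_eq, Finset.sum_apply]
    push_cast
    rfl

/-- From the equations to the words. -/
theorem mer_W (hS : Tr S) (L : List (Fin a × Fin b × Fin c))
    (h : ∀ I, MerC S fun x => (cntC (sub I L) x : ℂ)) : MerC S fun x => (cntW L x : ℂ) := by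
  have hA : ∀ I, MerC S fun x => (cntA L I x : ℂ) := fun I =>
    MerC.unshift hS _ ((h I).congr fun x => (cntC_sub L I x).symm)
  have hB : ∀ I, MerC S fun x => (cntB L I x : ℂ) := by
    intro I
    induction I using Finset.strongInduction with
    | H I ih =>
      have h1 := (merC_sum I.ssubsets (fun J x => (cntB L J x : ℂ)) (bd_B L) fun J hJ =>
        ih J (Finset.mem_ssubsets.1 hJ))
      exact ((hA I).sub (bd_A L I) h1.2 h1.1).congr fun x => by
        rw [Pi.sub_apply, cntA_eq, Finset.sum_apply, Finset.ssubsets]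
        rw [← Finset.add_sum_erase I.powerset (fun J => cntB L J x)
          (Finset.mem_powerset_self I)]
        push_cast
        ring
  exact (hB Finset.univ).congr fun x => cntB_univ L x

end Pool.Agent.H440.WG
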